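import Pool.Agent.Lib.MP_eee7a8_ag.TB.IfaceB

/-!
# TAGBR Part B, module AXFAM: the strands of a family of loops (uses AXC)
-/

open Matrix

namespace Pool.Agent.Lib.MP_eee7a8_ag.TB.PB.H49

theorem sideF_inv' (h : SLZ) : sideF h⁻¹ = (sideF h).neg := by
  rw [sideF_inv]; rfl

theorem res_nonneg_of {h k : SLZ} (hax : AXC_S) (hh : 2 < h.1.trace) (hk : 2 < k.1.trace)
    (hn : ¬ AxesCross h k) : 0 ≤ (sideF h).res (sideF k) := by
  by_contra hc
  push Not at hc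
  exact hn ((hax h k (lt_of_lt_of_le hh (le_abs_self _))
    (lt_of_lt_of_le hk (le_abs_self _))).2 hc)

theorem axfam (hax : AXC_S) : AXFAM_S := by
  intro G κ _ Λ
  -- the basic inequality
  have key : ∀ i j, ∀ g ∈ G, 0 ≤ (sideF (Λ.h i)).res (sideF (g * Λ.h j * g⁻¹)) := by
    intro i j g hg
    have tr2 : 2 < (g * Λ.h j * g⁻¹).1.trace := by rw [trace_conj]; exact Λ.tr j
    apply res_nonneg_of hax (Λ.tr i) tr2
    by_cases hij : i = j
    · subst hij; exact (Λ.loop i).simple g hg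
    · exact (Λ.disj i j hij g hg).1
  have key2 : ∀ i j, ∀ g ∈ G, ∀ g' ∈ G,
      0 ≤ (sideF (g * Λ.h i * g⁻¹)).res (sideF (g' * Λ.h j * g'⁻¹)) := by
    intro i j g hg g' hg'
    have e : sideF (g' * Λ.h j * g'⁻¹) =
        (sideF ((g⁻¹ * g') * Λ.h j * (g⁻¹ * g')⁻¹)).act g := by
      rw [act_sideF]
      congr 1
      group
    rw [e, ← act_sideF, res_act]
    exact key i j _ (G.mul_mem (G.inv_mem hg) hg')
  refine ⟨⟨⟨?_, ?_, ?_⟩, ?_⟩, ?_, ?_⟩
  · rintro f ⟨j, g, _, rfl⟩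
    rw [disc_sideF, trace_conj]
    have := Λ.tr j
    nlinarith
  · rintro g hg f ⟨j, g', hg', rfl⟩
    refine ⟨j, g * g', G.mul_mem hg hg', ?_⟩
    rw [act_sideF]
    congr 1
    group
  · obtain ⟨N, hN⟩ := (Set.finite_range (fun j => (Λ.h j).1.trace ^ 2 - 4)).bddAbove
    refine ⟨N, ?_⟩
    rintro f ⟨j, g, _, rfl⟩
    rw [disc_sideF, trace_conj]
    exact hN ⟨j, rfl⟩
  · classical
    obtain ⟨F, hF⟩ := (Set.finite_range (fun j => sideF (Λ.h j))).exists_finset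
    refine ⟨F, ?_, ?_⟩
    · intro f hf g hg
      obtain ⟨j, rfl⟩ := (hF f).1 hf
      simp only
      rw [act_sideF]
      exact key j j g hg
    · rintro f ⟨j, g, hg, rfl⟩
      exact ⟨sideF (Λ.h j), (hF _).2 ⟨j, rfl⟩, g, hg, (act_sideF _ _).symm⟩
  · rintro k ⟨i, g, hg, hk⟩ f ⟨j, g', hg', rfl⟩
    rcases hk with rfl | rfl
    · exact key2 i j g hg g' hg'
    · have e : g * (Λ.h i)⁻¹ * g⁻¹ = (g * Λ.h i * g⁻¹)⁻¹ := by group
      rw [e, sideF_inv', res_neg]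
      exact key2 i j g hg g' hg'
  · rintro k ⟨i, g, hg, hk⟩
    rcases hk with rfl | rfl
    · exact Or.inl ⟨i, g, hg, rfl⟩
    · right
      refine ⟨i, g, hg, ?_⟩
      rw [← sideF_inv']
      congr 1
      group

end Pool.Agent.Lib.MP_eee7a8_ag.TB.PB.H49
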