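import Pool.Agent.Lib.MP_eee7a8_ag.TB.IfaceB

/-!
# TAGBR module NOCR
-/

namespace Pool.Agent.Lib.MP_eee7a8_ag.TB.PB.H49

theorem semidef (a b c : ℝ) (h : b ^ 2 - 4 * a * c ≤ 0) :
    (∀ x y : ℝ, 0 ≤ a * x ^ 2 + b * x * y + c * y ^ 2) ∨
    (∀ x y : ℝ, a * x ^ 2 + b * x * y + c * y ^ 2 ≤ 0) := by
  rcases lt_trichotomy a 0 with ha | ha | ha
  · right
    intro x y
    have h1 : 0 ≤ 4 * a * (a * x ^ 2 + b * x * y + c * y ^ 2) := by
      have h2 : 4 * a * (a * x ^ 2 + b * x * y + c * y ^ 2) =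
        (2 * a * x + b * y) ^ 2 + (-(b ^ 2 - 4 * a * c)) * y ^ 2 := by ring
      rw [h2]
      have h3 : 0 ≤ -(b ^ 2 - 4 * a * c) := by linarith
      exact add_nonneg (sq_nonneg _) (mul_nonneg h3 (sq_nonneg _))
    by_contra hc
    push Not at hc
    have : 4 * a * (a * x ^ 2 + b * x * y + c * y ^ 2) < 0 :=
      mul_neg_of_neg_of_pos (by linarith) hc
    linarith
  · subst ha
    have hb : b = 0 := by
      have : b ^ 2 ≤ 0 := by linarith
      exact pow_eq_zero_iff (two_ne_zero) |>.1 (le_antisymm this (sq_nonneg b))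
    subst hb
    rcases le_total 0 c with hc | hc
    · left
      intro x y
      have := mul_nonneg hc (sq_nonneg y)
      linarith
    · right
      intro x y
      have := mul_nonneg (neg_nonneg.2 hc) (sq_nonneg y)
      linarith
  · left
    intro x y
    have h1 : 0 ≤ 4 * a * (a * x ^ 2 + b * x * y + c * y ^ 2) := by
      have h2 : 4 * a * (a * x ^ 2 + b * x * y + c * y ^ 2) =
        (2 * a * x + b * y) ^ 2 + (-(b ^ 2 - 4 * a * c)) * y ^ 2 := by ring
      rw [h2]
      have h3 : 0 ≤ -(b ^ 2 - 4 * a * c) := by linarith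
      exact add_nonneg (sq_nonneg _) (mul_nonneg h3 (sq_nonneg _))
    by_contra hc
    push Not at hc
    have : 4 * a * (a * x ^ 2 + b * x * y + c * y ^ 2) < 0 :=
      mul_neg_of_pos_of_neg (by linarith) hc
    linarith

theorem nocr : NOCR_S := by
  intro f g hf hg hr
  have h4 := four_res f g
  set B : ℤ := f.b * g.b - 2 * f.a * g.c - 2 * f.c * g.a with hB
  have hB2 : f.disc * g.disc ≤ B ^ 2 := by linarith
  have hf' : (0 : ℝ) < (f.disc : ℝ) := by exact_mod_cast hf
  have hg' : (0 : ℝ) < (g.disc : ℝ) := by exact_mod_cast hg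
  set s : ℝ := Real.sqrt (f.disc : ℝ) with hs
  set t : ℝ := Real.sqrt (g.disc : ℝ) with ht
  have hs0 : 0 < s := Real.sqrt_pos.2 hf'
  have ht0 : 0 < t := Real.sqrt_pos.2 hg'
  have hs2 : s ^ 2 = (f.b : ℝ) ^ 2 - 4 * f.a * f.c := by
    rw [hs, Real.sq_sqrt hf'.le]; unfold QF.disc; push_cast; ring
  have ht2 : t ^ 2 = (g.b : ℝ) ^ 2 - 4 * g.a * g.c := by
    rw [ht, Real.sq_sqrt hg'.le]; unfold QF.disc; push_cast; ring
  have hBr : (B : ℝ) = f.b * g.b - 2 * f.a * g.c - 2 * f.c * g.a := by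
    rw [hB]; push_cast; ring
  have hst : (s * t) ^ 2 ≤ (B : ℝ) ^ 2 := by
    have h1 : ((f.disc * g.disc : ℤ) : ℝ) ≤ ((B ^ 2 : ℤ) : ℝ) := by exact_mod_cast hB2
    rw [mul_pow, hs, ht, Real.sq_sqrt hf'.le, Real.sq_sqrt hg'.le]
    push_cast at h1
    exact h1
  have hst0 : 0 < s * t := mul_pos hs0 ht0
  have evf : ∀ v : Cusp, (f.ev v : ℝ) = f.a * (v.x : ℝ) ^ 2 + f.b * v.x * v.y + f.c * (v.y : ℝ) ^ 2 := by
    intro v; unfold QF.ev; push_cast; ring
  have evg : ∀ v : Cusp, (g.ev v : ℝ) = g.a * (v.x : ℝ) ^ 2 + g.b * v.x * v.y + g.c * (v.y : ℝ) ^ 2 := by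
    intro v; unfold QF.ev; push_cast; ring
  rcases le_total 0 (B : ℝ) with hB0 | hB0
  · have hle : s * t ≤ (B : ℝ) := by
      exact (pow_le_pow_iff_left₀ hst0.le hB0 two_ne_zero).1 hst
    have hd : (t * f.b - s * g.b) ^ 2 - 4 * (t * f.a - s * g.a) * (t * f.c - s * g.c) ≤ 0 := by
      have e : (t * f.b - s * g.b) ^ 2 - 4 * (t * f.a - s * g.a) * (t * f.c - s * g.c) =
          2 * (s * t) * (s * t - (B : ℝ)) := by
        rw [hBr]
        linear_combination (-(t ^ 2)) * hs2 - (s ^ 2) * ht2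
      rw [e]
      exact mul_nonpos_of_nonneg_of_nonpos (by linarith) (by linarith)
    rcases semidef _ _ _ hd with H | H
    · left
      intro v hv
      have h1 := H v.x v.y
      have h2 : (f.ev v : ℝ) < 0 := by exact_mod_cast hv
      have h3 : s * (g.ev v : ℝ) ≤ t * (f.ev v : ℝ) := by
        rw [evf, evg]; linarith
      have h4 : t * (f.ev v : ℝ) < 0 := mul_neg_of_pos_of_neg ht0 h2
      have h5 : (g.ev v : ℝ) < 0 := by
        by_contra hc
        push Not at hc
        have := mul_nonneg hs0.le hc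
        linarith
      exact_mod_cast h5
    · right; left
      intro v hv
      have h1 := H v.x v.y
      have h2 : 0 < (f.ev v : ℝ) := by exact_mod_cast hv
      have h3 : t * (f.ev v : ℝ) ≤ s * (g.ev v : ℝ) := by
        rw [evf, evg]; linarith
      have h4 : 0 < t * (f.ev v : ℝ) := mul_pos ht0 h2
      have h5 : 0 < (g.ev v : ℝ) := by
        by_contra hc
        push Not at hc
        have := mul_nonneg hs0.le (neg_nonneg.2 hc)
        linarith
      exact_mod_cast h5
  · have hle : s * t ≤ -(B : ℝ) := by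
      have h1 : (s * t) ^ 2 ≤ (-(B : ℝ)) ^ 2 := by rw [neg_sq]; exact hst
      exact (pow_le_pow_iff_left₀ hst0.le (by linarith) two_ne_zero).1 h1
    have hd : (t * f.b + s * g.b) ^ 2 - 4 * (t * f.a + s * g.a) * (t * f.c + s * g.c) ≤ 0 := by
      have e : (t * f.b + s * g.b) ^ 2 - 4 * (t * f.a + s * g.a) * (t * f.c + s * g.c) =
          2 * (s * t) * (s * t + (B : ℝ)) := by
        rw [hBr]
        linear_combination (-(t ^ 2)) * hs2 - (s ^ 2) * ht2
      rw [e]
      exact mul_nonpos_of_nonneg_of_nonpos (by linarith) (by linarith)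
    rcases semidef _ _ _ hd with H | H
    · right; right; left
      intro v hv
      have h1 := H v.x v.y
      have h2 : (f.ev v : ℝ) < 0 := by exact_mod_cast hv
      have h3 : 0 ≤ t * (f.ev v : ℝ) + s * (g.ev v : ℝ) := by
        rw [evf, evg]; linarith
      have h4 : t * (f.ev v : ℝ) < 0 := mul_neg_of_pos_of_neg ht0 h2
      have h5 : 0 < (g.ev v : ℝ) := by
        by_contra hc
        push Not at hc
        have := mul_nonneg hs0.le (neg_nonneg.2 hc)
        linarith
      exact_mod_cast h5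
    · right; right; right
      intro v hv
      have h1 := H v.x v.y
      have h2 : 0 < (f.ev v : ℝ) := by exact_mod_cast hv
      have h3 : t * (f.ev v : ℝ) + s * (g.ev v : ℝ) ≤ 0 := by
        rw [evf, evg]; linarith
      have h4 : 0 < t * (f.ev v : ℝ) := mul_pos ht0 h2
      have h5 : (g.ev v : ℝ) < 0 := by
        by_contra hc
        push Not at hc
        have := mul_nonneg hs0.le hc
        linarith
      exact_mod_cast h5

end Pool.Agent.Lib.MP_eee7a8_ag.TB.PB.H49
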