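import Pool.Agent.Lib.MP_eee7a8_ag.TB.IfaceB

/-!
# TAGBR Part B, module SAME: equal half planes belong to equal elements
-/

open Matrix

namespace Pool.Agent.Lib.MP_eee7a8_ag.TB.PB.H49

/-- Members of a family of loops are not proper powers. -/
theorem prim_of_mem {G : Subgroup SLZ} {κ : Type} (Λ : LFam G κ) {k : SLZ} (hk : k ∈ Λ.KK)
    {g0 : SLZ} (hg0 : g0 ∈ G) {a : ℕ} (h : k = g0 ^ a) : a = 1 := by
  obtain ⟨j, g, hg, hk' | hk'⟩ := hk
  · refine (Λ.loop j).prim (g⁻¹ * g0 * g) (G.mul_mem (G.mul_mem (G.inv_mem hg) hg0) hg) a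
      (Or.inl ?_)
    have h1 : (g⁻¹ * g0 * g) ^ a = g⁻¹ * g0 ^ a * g := by
      have := conj_pow (i := a) (a := g⁻¹) (b := g0)
      rwa [inv_inv] at this
    rw [h1, ← h, hk']; group
  · refine (Λ.loop j).prim (g⁻¹ * g0⁻¹ * g)
      (G.mul_mem (G.mul_mem (G.inv_mem hg) (G.inv_mem hg0)) hg) a (Or.inl ?_)
    have h1 : (g⁻¹ * g0⁻¹ * g) ^ a = g⁻¹ * g0⁻¹ ^ a * g := by
      have := conj_pow (i := a) (a := g⁻¹) (b := g0⁻¹)
      rwa [inv_inv] at this
    rw [h1, inv_pow, ← h, hk']; group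

/-- Same axis, same orientation. -/
def Par (k g : SLZ) : Prop :=
  k.1 1 0 * (g.1 1 1 - g.1 0 0) = g.1 1 0 * (k.1 1 1 - k.1 0 0) ∧
  k.1 1 0 * g.1 0 1 = g.1 1 0 * k.1 0 1 ∧ 0 < k.1 1 0 * g.1 1 0

theorem Par.symm {k g : SLZ} (h : Par k g) : Par g k :=
  ⟨h.1.symm, h.2.1.symm, by rw [mul_comm]; exact h.2.2⟩

/-- The arithmetic of one step of the Euclidean algorithm. -/
theorem arith (t t' r r' W T : ℤ) (h1 : r * W = r' * (t ^ 2 - 4)) (h2 : r' * W = r * (t' ^ 2 - 4))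
    (hr : 0 < r * r') (ht' : 3 ≤ t') (htt : t' < t) (hT : 2 * T = t * t' - W) :
    2 < T ∧ T < t ∧ 0 < (r * t' - r' * t) * r' := by
  have hD' : 5 ≤ t' ^ 2 - 4 := by nlinarith
  have hDD : t' ^ 2 - 4 < t ^ 2 - 4 := by nlinarith
  have hr0 : r ≠ 0 := by rintro rfl; simp at hr
  have hr'0 : r' ≠ 0 := by rintro rfl; simp at hr
  have hr2 : 0 < r ^ 2 := by positivity
  have hr'2 : 0 < r' ^ 2 := by positivity
  have hW : 0 < W := by
    have : 0 < r ^ 2 * W := by
      have e : r ^ 2 * W = (r * r') * (t ^ 2 - 4) := by linear_combination r * h1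
      rw [e]; exact mul_pos hr (by linarith)
    exact (pos_iff_pos_of_mul_pos this).1 hr2
  have hWW : W ^ 2 = (t ^ 2 - 4) * (t' ^ 2 - 4) := by
    have : (r * r') * W ^ 2 = (r * r') * ((t ^ 2 - 4) * (t' ^ 2 - 4)) := by
      linear_combination (r' * W) * h1 + r' * (t ^ 2 - 4) * h2
    exact mul_left_cancel₀ hr.ne' this
  have hrr : r ^ 2 * (t' ^ 2 - 4) = r' ^ 2 * (t ^ 2 - 4) := by
    linear_combination r' * h1 - r * h2
  -- `r'² < r²`
  have hlt : r' ^ 2 < r ^ 2 := by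
    by_contra hcon
    push Not at hcon
    have a1 : r ^ 2 * (t' ^ 2 - 4) ≤ r' ^ 2 * (t' ^ 2 - 4) :=
      mul_le_mul_of_nonneg_right hcon (by linarith)
    have a2 : r' ^ 2 * (t' ^ 2 - 4) < r' ^ 2 * (t ^ 2 - 4) :=
      mul_lt_mul_of_pos_left hDD hr'2
    linarith
  have hsq : (r' ^ 2 * t) ^ 2 < (r * r' * t') ^ 2 := by
    have e : (r * r' * t') ^ 2 - (r' ^ 2 * t) ^ 2 = r' ^ 2 * (4 * (r ^ 2 - r' ^ 2)) := by
      linear_combination r' ^ 2 * hrr
    have : 0 < r' ^ 2 * (4 * (r ^ 2 - r' ^ 2)) := mul_pos hr'2 (by linarith)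
    linarith
  have hlt2 : r' ^ 2 * t < r * r' * t' := by
    have a1 : 0 ≤ r * r' * t' := by positivity
    exact lt_of_pow_lt_pow_left₀ 2 a1 hsq
  have hT0 : 0 < T := by
    have a1 : W ^ 2 < (t * t') ^ 2 := by
      rw [hWW]; nlinarith
    have a2 : 0 ≤ t * t' := by
      apply mul_nonneg <;> linarith
    have a3 : W < t * t' := lt_of_pow_lt_pow_left₀ 2 a2 a1
    omega
  refine ⟨?_, ?_, ?_⟩
  · -- `4 r² (T² - 4) = (r t' - r' t)² (t² - 4)`
    have e : r ^ 2 * (4 * (T ^ 2 - 4)) = (r * t' - r' * t) ^ 2 * (t ^ 2 - 4) := by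
      have hT2 : 4 * T ^ 2 = (t * t' - W) ^ 2 := by rw [← hT]; ring
      linear_combination r ^ 2 * hT2 + r ^ 2 * hWW + (-2 * r * t * t' ) * h1 + t ^ 2 * hrr
    have hne : r * t' - r' * t ≠ 0 := by
      intro h0
      have : (r * t' - r' * t) * r' = 0 := by rw [h0]; ring
      nlinarith
    have hpos : 0 < (r * t' - r' * t) ^ 2 * (t ^ 2 - 4) := by
      apply mul_pos
      · positivity
      · linarith
    rw [← e] at hpos
    have : 0 < 4 * (T ^ 2 - 4) := (pos_iff_pos_of_mul_pos hpos).1 hr2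
    nlinarith
  · have a1 : (t * (t' - 2)) ^ 2 < W ^ 2 := by
      rw [hWW]
      have e : (t ^ 2 - 4) * (t' ^ 2 - 4) - (t * (t' - 2)) ^ 2 =
          (t' - 2) * (4 * (t ^ 2 - t' - 2)) := by ring
      have : 0 < (t' - 2) * (4 * (t ^ 2 - t' - 2)) := by
        apply mul_pos (by linarith)
        nlinarith
      linarith
    have a2 : t * (t' - 2) < W := lt_of_pow_lt_pow_left₀ 2 hW.le a1
    nlinarith
  · linarith [hlt2, show (r * t' - r' * t) * r' = r * r' * t' - r' ^ 2 * t by ring]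

theorem mul_inv_entries (k g : SLZ) :
    (k * g⁻¹).1 0 0 = k.1 0 0 * g.1 1 1 - k.1 0 1 * g.1 1 0 ∧
    (k * g⁻¹).1 0 1 = -(k.1 0 0 * g.1 0 1) + k.1 0 1 * g.1 0 0 ∧
    (k * g⁻¹).1 1 0 = k.1 1 0 * g.1 1 1 - k.1 1 1 * g.1 1 0 ∧
    (k * g⁻¹).1 1 1 = -(k.1 1 0 * g.1 0 1) + k.1 1 1 * g.1 0 0 := by
  simp only [Matrix.SpecialLinearGroup.coe_mul, Matrix.mul_apply, Fin.sum_univ_two,
    Matrix.SpecialLinearGroup.coe_inv, Matrix.adjugate_fin_two, Matrix.of_apply,
    Matrix.cons_val', Matrix.cons_val_zero, Matrix.cons_val_one, Matrix.cons_val_fin_one]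
  refine ⟨?_, ?_, ?_, ?_⟩ <;> ring

theorem step_lt {k g : SLZ} (hg : 2 < g.1.trace) (hp : Par k g)
    (hlt : g.1.trace < k.1.trace) :
    Par (k * g⁻¹) g ∧ 2 < (k * g⁻¹).1.trace ∧ (k * g⁻¹).1.trace < k.1.trace := by
  obtain ⟨e00, e01, e10, e11⟩ := mul_inv_entries k g
  have dk := det_eq k
  have dg := det_eq g
  obtain ⟨h1, h2, h3⟩ := hp
  have hT : (k * g⁻¹).1.trace = (k * g⁻¹).1 0 0 + (k * g⁻¹).1 1 1 := Matrix.trace_fin_two _
  rw [e00, e11] at hT
  rw [Matrix.trace_fin_two] at hg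
  rw [Matrix.trace_fin_two, Matrix.trace_fin_two] at hlt
  unfold Par
  rw [hT, Matrix.trace_fin_two k.1, e00, e01, e10, e11]
  generalize k.1 0 0 = p at *
  generalize k.1 0 1 = q at *
  generalize k.1 1 0 = r at *
  generalize k.1 1 1 = s at *
  generalize g.1 0 0 = p' at *
  generalize g.1 0 1 = q' at *
  generalize g.1 1 0 = r' at *
  generalize g.1 1 1 = s' at *
  have key := arith (p + s) (p' + s') r r' ((s - p) * (s' - p') + 4 * q * r')
    (p * s' - q * r' + (-(r * q') + s * p'))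
    (by linear_combination (s - p) * h1 - 4 * r' * dk)
    (by linear_combination (-(s' - p')) * h1 - 4 * r * dg - 4 * r' * h2)
    h3 (by linarith) (by linarith) (by linear_combination (-2) * h2)
  refine ⟨⟨?_, ?_, ?_⟩, key.1, key.2.1⟩
  · linear_combination s' * h1 + r' * h2
  · linear_combination q' * h1 + p' * h2
  · have h4 : 2 * ((r * s' - s * r') * r') = (r * (p' + s') - r' * (p + s)) * r' := by
      linear_combination r' * h1
    have := key.2.2
    linarith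

theorem step_eq {k g : SLZ} (hg : 2 < g.1.trace) (hp : Par k g)
    (heq : k.1.trace = g.1.trace) : k = g := by
  have dk := det_eq k
  have dg := det_eq g
  obtain ⟨h1, h2, h3⟩ := hp
  rw [Matrix.trace_fin_two] at hg
  rw [Matrix.trace_fin_two, Matrix.trace_fin_two] at heq
  have main : k.1 0 0 = g.1 0 0 ∧ k.1 0 1 = g.1 0 1 ∧ k.1 1 0 = g.1 1 0 ∧ k.1 1 1 = g.1 1 1 := by
    generalize k.1 0 0 = p at *
    generalize k.1 0 1 = q at *
    generalize k.1 1 0 = r at *
    generalize k.1 1 1 = s at *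
    generalize g.1 0 0 = p' at *
    generalize g.1 0 1 = q' at *
    generalize g.1 1 0 = r' at *
    generalize g.1 1 1 = s' at *
    have hr : r ≠ 0 := by rintro rfl; simp at h3
    have hr' : r' ≠ 0 := by rintro rfl; simp at h3
    have hD : r ^ 2 * ((p' + s') ^ 2 - 4) = r' ^ 2 * ((p' + s') ^ 2 - 4) := by
      have e1 : r ^ 2 * ((p' + s') ^ 2 - 4) = r' ^ 2 * ((p + s) ^ 2 - 4) := by
        linear_combination (r * (s' - p') + r' * (s - p)) * h1 + 4 * r ^ 2 * dg - 4 * r' ^ 2 * dk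
          + (4 * r * r') * h2
      rw [e1, heq]
    have hne : (p' + s') ^ 2 - 4 ≠ 0 := by nlinarith
    have hrr : r ^ 2 = r' ^ 2 := mul_right_cancel₀ hne hD
    have hre : r = r' := by
      rcases sq_eq_sq_iff_eq_or_eq_neg.1 hrr with h | h
      · exact h
      · exfalso; rw [h] at h3; nlinarith
    subst hre
    have h4 : s' - p' = s - p := mul_left_cancel₀ hr h1
    have h5 : q' = q := mul_left_cancel₀ hr h2
    exact ⟨by linarith, h5.symm, rfl, by linarith⟩
  apply Subtype.ext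
  ext i j
  fin_cases i <;> fin_cases j
  · exact main.1
  · exact main.2.1
  · exact main.2.2.1
  · exact main.2.2.2

/-- The Euclidean algorithm. -/
theorem euclid (G : Subgroup SLZ) : ∀ (n : ℕ) (k g : SLZ), k ∈ G → g ∈ G → 2 < k.1.trace →
    2 < g.1.trace → Par k g → k.1.trace + g.1.trace ≤ n →
    ∃ g0 ∈ G, ∃ a b : ℕ, k = g0 ^ a ∧ g = g0 ^ b := by
  intro n
  induction n with
  | zero => intro k g _ _ h1 h2 _ h3; push_cast at h3; omega
  | succ n ih =>
    intro k g hk hg h1 h2 hp hn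
    push_cast at hn
    rcases lt_trichotomy k.1.trace g.1.trace with h | h | h
    · obtain ⟨p1, p2, p3⟩ := step_lt h1 hp.symm h
      obtain ⟨g0, hg0, a, b, ha, hb⟩ := ih k (g * k⁻¹) hk (G.mul_mem hg (G.inv_mem hk)) h1 p2
        p1.symm (by linarith)
      refine ⟨g0, hg0, a, b + a, ha, ?_⟩
      rw [pow_add, ← ha, ← hb, inv_mul_cancel_right]
    · exact ⟨k, hk, 1, 1, (pow_one k).symm, by rw [pow_one]; exact (step_eq h2 hp h).symm⟩
    · obtain ⟨p1, p2, p3⟩ := step_lt h2 hp h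
      obtain ⟨g0, hg0, a, b, ha, hb⟩ := ih (k * g⁻¹) g (G.mul_mem hk (G.inv_mem hg)) hg p2 h2
        p1 (by linarith)
      refine ⟨g0, hg0, a + b, b, ?_, hb⟩
      rw [pow_add, ← ha, ← hb, inv_mul_cancel_right]

/-- The rational cusp. -/
def ratCusp (q : ℚ) : Cusp :=
  ⟨q.num, q.den, by
    rw [Int.isCoprime_iff_gcd_eq_one]
    exact q.reduced, Or.inl (by exact_mod_cast q.pos)⟩

theorem side_ratCusp (k : SLZ) (q : ℚ) : (side k (ratCusp q) : ℝ) =
    (q.den : ℝ) ^ 2 * ((k.1 1 0 : ℝ) * (q : ℝ) ^ 2 + ((k.1 1 1 : ℝ) - k.1 0 0) * q - k.1 0 1) := by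
  have hd : (q.den : ℝ) ≠ 0 := by exact_mod_cast q.den_nz
  have hq : (q : ℝ) = (q.num : ℝ) / q.den := by
    exact_mod_cast (Rat.num_div_den q).symm
  have e : side k (ratCusp q) = q.num * (k.1 1 0 * q.num + k.1 1 1 * q.den) -
      q.den * (k.1 0 0 * q.num + k.1 0 1 * q.den) := rfl
  rw [e, hq]
  push_cast
  field_simp
  ring

theorem quad_deriv (a b c x : ℝ) :
    HasDerivAt (fun t : ℝ => a * t ^ 2 + b * t + c) (a * (2 * x) + b) x := by
  have h1 : HasDerivAt (fun t : ℝ => t ^ 2) (2 * x) x := by simpa using hasDerivAt_pow 2 x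
  have h2 : HasDerivAt (fun t : ℝ => a * t ^ 2) (a * (2 * x)) x := h1.const_mul a
  have h3 : HasDerivAt (fun t : ℝ => b * t) b x := by
    simpa using (hasDerivAt_id x).const_mul b
  exact (h2.add h3).add_const c

theorem par_of_same {k k' : SLZ} (hk : 2 < k.1.trace)
    (h : ∀ v, 0 < side k v * side k' v) : Par k k' := by
  set a : ℝ := (k.1 1 0 : ℝ) with ha
  set b : ℝ := (k.1 1 1 : ℝ) - k.1 0 0 with hb
  set c : ℝ := -(k.1 0 1 : ℝ) with hc
  set a' : ℝ := (k'.1 1 0 : ℝ) with ha'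
  set b' : ℝ := (k'.1 1 1 : ℝ) - k'.1 0 0 with hb'
  set c' : ℝ := -(k'.1 0 1 : ℝ) with hc'
  have h3 : 0 < k.1 1 0 * k'.1 1 0 := by
    have := h infty
    have e : ∀ g : SLZ, side g infty = g.1 1 0 := by
      intro g
      unfold side infty
      ring
    rwa [e, e] at this
  have ha0 : a ≠ 0 := by
    intro h0
    have : k.1 1 0 = 0 := by
      rw [ha] at h0; exact_mod_cast h0
    rw [this] at h3; simp at h3
  have hD : 0 < b ^ 2 - 4 * a * c := by
    have h1 : (k.1 0 0 : ℝ) * k.1 1 1 - k.1 0 1 * k.1 1 0 = 1 := by exact_mod_cast det_eq k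
    have h2 : (2 : ℝ) < k.1 0 0 + k.1 1 1 := by
      rw [Matrix.trace_fin_two] at hk; exact_mod_cast hk
    rw [ha, hb, hc]
    nlinarith
  set P : ℝ → ℝ := fun t => (a * t ^ 2 + b * t + c) * (a' * t ^ 2 + b' * t + c') with hP
  have hcont : Continuous P := by fun_prop
  have hnn : ∀ t, 0 ≤ P t := by
    intro t
    refine DenseRange.induction_on (Rat.denseRange_cast (𝕜 := ℝ)) t ?_ ?_
    · exact isClosed_le continuous_const hcont
    · intro q
      have h1 : (0 : ℝ) < (side k (ratCusp q) : ℝ) * side k' (ratCusp q) := by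
        exact_mod_cast h (ratCusp q)
      rw [side_ratCusp, side_ratCusp] at h1
      have hd : (0 : ℝ) < q.den := by exact_mod_cast q.pos
      have h4 : 0 < ((q.den : ℝ) ^ 2 * (q.den : ℝ) ^ 2) * P q := by
        have e : ((q.den : ℝ) ^ 2 * (q.den : ℝ) ^ 2) * P q =
            (q.den : ℝ) ^ 2 * ((k.1 1 0 : ℝ) * (q : ℝ) ^ 2 + ((k.1 1 1 : ℝ) - k.1 0 0) * q -
              k.1 0 1) * ((q.den : ℝ) ^ 2 * ((k'.1 1 0 : ℝ) * (q : ℝ) ^ 2 +
              ((k'.1 1 1 : ℝ) - k'.1 0 0) * q - k'.1 0 1)) := by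
          rw [hP, ha, hb, hc, ha', hb', hc']; ring
        rw [e]; exact h1
      exact ((pos_iff_pos_of_mul_pos h4).1 (by positivity)).le
  -- at a root of the first form the second one vanishes
  have hroot : ∀ x, a * x ^ 2 + b * x + c = 0 → a' * x ^ 2 + b' * x + c' = 0 := by
    intro x hx
    have hmin : IsLocalMin P x := by
      refine Filter.Eventually.of_forall (fun t => ?_)
      have : P x = 0 := by
        simp only [hP]; rw [hx, zero_mul]
      rw [this]; exact hnn t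
    have hd1 := quad_deriv a b c x
    have hd2 := quad_deriv a' b' c' x
    have hd : HasDerivAt P ((a * (2 * x) + b) * (a' * x ^ 2 + b' * x + c') +
        (a * x ^ 2 + b * x + c) * (a' * (2 * x) + b')) x := hd1.mul hd2
    have h0 := hmin.hasDerivAt_eq_zero hd
    rw [hx, zero_mul, add_zero] at h0
    have hne : a * (2 * x) + b ≠ 0 := by
      intro h5
      have : b ^ 2 - 4 * a * c = (a * (2 * x) + b) ^ 2 := by
        linear_combination (-4 * a) * hx
      rw [this, h5] at hD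
      simp at hD
    exact (mul_eq_zero.1 h0).resolve_left hne
  set S := Real.sqrt (b ^ 2 - 4 * a * c) with hS
  have hS2 : S ^ 2 = b ^ 2 - 4 * a * c := Real.sq_sqrt hD.le
  have hSpos : 0 < S := Real.sqrt_pos.2 hD
  have r1 : a * ((-b + S) / (2 * a)) ^ 2 + b * ((-b + S) / (2 * a)) + c = 0 := by
    field_simp
    linear_combination hS2
  have r2 : a * ((-b - S) / (2 * a)) ^ 2 + b * ((-b - S) / (2 * a)) + c = 0 := by
    field_simp
    linear_combination hS2
  have q1 := hroot _ r1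
  have q2 := hroot _ r2
  have l1 : (a * b' - a' * b) * ((-b + S) / (2 * a)) + (a * c' - a' * c) = 0 := by
    linear_combination a * q1 - a' * r1
  have l2 : (a * b' - a' * b) * ((-b - S) / (2 * a)) + (a * c' - a' * c) = 0 := by
    linear_combination a * q2 - a' * r2
  have l3 : (a * b' - a' * b) * (S / a) = 0 := by
    have : (a * b' - a' * b) * (S / a) = (a * b' - a' * b) * ((-b + S) / (2 * a)) -
        (a * b' - a' * b) * ((-b - S) / (2 * a)) := by
      field_simp; ring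
    rw [this]; linarith
  have l4 : a * b' - a' * b = 0 :=
    (mul_eq_zero.1 l3).resolve_right (div_ne_zero hSpos.ne' ha0)
  rw [l4, zero_mul, zero_add] at l1
  refine ⟨?_, ?_, h3⟩
  · have : (k.1 1 0 : ℝ) * (k'.1 1 1 - k'.1 0 0) = k'.1 1 0 * (k.1 1 1 - k.1 0 0) := by
      linarith
    exact_mod_cast this
  · have : (k.1 1 0 : ℝ) * k'.1 0 1 = k'.1 1 0 * k.1 0 1 := by
      rw [hc, hc'] at l1; linarith
    exact_mod_cast this

theorem same : SAME_S := by
  intro G κ Λ k hk k' hk' h1 h2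
  have tk := LFam.KK_tr hk
  have tk' := LFam.KK_tr hk'
  have hs : ∀ v, 0 < side k v * side k' v := by
    intro v
    have n1 := LFam.side_ne hk v
    have n2 := LFam.side_ne hk' v
    rcases lt_or_gt_of_ne n1 with h | h
    · have : side k' v < 0 := by
        rcases lt_or_gt_of_ne n2 with h' | h'
        · exact h'
        · exact absurd (h2 v h') (by omega)
      exact mul_pos_of_neg_of_neg h this
    · exact mul_pos h (h1 v h)
  have hp := par_of_same tk hs
  obtain ⟨g0, hg0, a, b, ha, hb⟩ := euclid G (k.1.trace + k'.1.trace).toNat k k'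
    (LFam.KK_G hk) (LFam.KK_G hk') tk tk' hp (by omega)
  have e1 := prim_of_mem Λ hk hg0 ha
  have e2 := prim_of_mem Λ hk' hg0 hb
  rw [ha, hb, e1, e2]

end Pool.Agent.Lib.MP_eee7a8_ag.TB.PB.H49
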